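import Pool.Agent.R390.SF.PolDef

/-!
# Polarized pure integral systems with generic Frobenius elements at two primes
-/

set_option autoImplicit false

namespace Pool.Agent.U922.SF

open Polynomial NumberField Pool.Agent.Y800 Pool.Agent.R390.SF
open Pool.Agent.Y126.SH (chi)

variable {F : SubFld ℚ} {n : ℕ}

/-- The properties of the realisations of a polarized pure motive over `F` of weight `w` (with Hodge
numbers `h^{r,w-r} = 0` for `r < 0`), with a lattice, with good reduction outside the finite set `S`
of primes and semistable reduction in `S`. The polarization of `T_ℓ` is perfect for `ℓ` outside the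
finite set `S'` (`S'` contains `S` and the small primes, for which the theory of Fontaine and
Laffaille does not apply to `T_ℓ / ℓ`). There is no condition on the Hodge numbers. -/
structure PolarizedPure (S S' : Finset ℕ) (w : ℕ) (T : IntegralSystem F n) : Prop
    extends T.GoodSystem S w where
  /-- semistable reduction in `S` -/
  semistable : ∀ p : ℕ, p.Prime → p ∈ S → ∀ 𝔭 : Ideal (𝓞 F), 𝔭.IsMaximal → (p : 𝓞 F) ∈ 𝔭 →
    T.SemistableAt p 𝔭
  /-- a polarization of `T_ℓ`, and the Hodge-Tate weights of `V_ℓ` at the places above `ℓ` are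
  natural numbers -/
  rational : ∀ (ℓ : ℕ) [Fact ℓ.Prime],
    (∃ J : Matrix (Fin n) (Fin n) ℤ_[ℓ], T.IsPolarization w ℓ J) ∧
    ∃ c : ℕ, WeightsAt F (T.rat ℓ) (fun g => algebraMap ℤ_[ℓ] ℚ_[ℓ] (chi ℓ g : ℤ_[ℓ])) ℓ c
  /-- for `ℓ` outside `S'` a perfect polarization of `T_ℓ`, and the Fontaine-Laffaille weights of
  `T_ℓ / ℓ` are natural numbers -/
  residual : ∀ (ℓ : ℕ) [Fact ℓ.Prime], ℓ ∉ S' →
    (∃ J : Matrix (Fin n) (Fin n) ℤ_[ℓ], T.IsPolarization w ℓ J ∧ IsUnit J.det) ∧
    WeightsAt F (T.res ℓ) (fun g => PadicInt.toZMod (chi ℓ g : ℤ_[ℓ])) ℓ (w * n)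

/-- An isotropic relation between the complex roots of the polynomials `R 𝔭`, `𝔭` the places of `F`
above `p`: families `A_x` of `d` roots of `R 𝔭_x` such that also the numbers `p ^ w / z`, `z` in `A_x`,
are roots (with multiplicities: `A_x` and `p ^ w / A_x` together are a part of the roots), and such
that the product of all the elements of all the `A_x` is a root of unity times `p ^ a`, where
`a = w [F : ℚ] d / 2` is a natural number. Here `x` runs through the cosets of the absolute Galois
group of `F` (the embeddings of `F`) and `𝔭_x` is the place of `F` below `x⁻¹ P`, for a maximal ideal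
`P` above `p` of the ring of all algebraic integers. -/
def IsotropicRelation (F : SubFld ℚ) (w p : ℕ) (R : Ideal (𝓞 F) → ℤ[X]) (P : Ideal ZBar)
    (d : ℕ) : Prop :=
  ∃ (A : (GQ ⧸ F.fixingSubgroup) → Multiset ℂ) (a N : ℕ), 0 < N ∧
    a * 2 = w * (Module.finrank ℚ F * d) ∧
    (∀ x, Multiset.card (A x) = d ∧
      A x + (A x).map (fun z => ((p ^ w : ℕ) : ℂ) / z) ≤
        (R ((cj x.out P).under (𝓞 F))).aroots ℂ) ∧
    (∏ᶠ x, (A x).prod) ^ N = (p : ℂ) ^ (a * N)

/-- The Frobenius elements of `T` at the prime number `p` are generic: `p` splits completely in `F`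
(a geometric Frobenius element `σ` at a maximal ideal `P` above `p` is in all the conjugates of the
absolute Galois group of `F`), and the Frobenius eigenvalues at the places above `p` have no isotropic
relation with `d > 0`. -/
def GenericAt (w p : ℕ) (T : IntegralSystem F n) : Prop :=
  ∃ (P : Ideal ZBar) (σ : GQ), P.IsMaximal ∧ (p : ZBar) ∈ P ∧ IsGeomFrob p P σ ∧
    σ ∈ (F.fixingSubgroup).normalCore ∧ ∀ d, IsotropicRelation F w p T.poly P d → d = 0

/-- The class of the theorem: polarized, pure, and generic at two primes `p ≠ q` outside `S`. -/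
structure InClass (S S' : Finset ℕ) (w : ℕ) (T : IntegralSystem F n) : Prop
    extends PolarizedPure S S' w T where
  /-- two primes with generic Frobenius elements -/
  generic : ∃ p q : ℕ, p.Prime ∧ q.Prime ∧ p ≠ q ∧ p ∉ S ∧ q ∉ S ∧ GenericAt w p T ∧ GenericAt w q T

/-- `T_ℓ` and `T'_ℓ` are isomorphic representations for all prime numbers `ℓ`. -/
def Isomorphic (T T' : IntegralSystem F n) : Prop :=
  ∀ (ℓ : ℕ) [Fact ℓ.Prime], ∃ A : GL (Fin n) ℤ_[ℓ],
    ∀ g : F.fixingSubgroup, T'.rho ℓ g = A * T.rho ℓ g * A⁻¹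

/-- Every stable subspace has a stable complement. -/
def Semisimple {k : Type} [Field k] (ρ : F.fixingSubgroup →* GL (Fin n) k) : Prop :=
  ∀ U : Submodule k (Fin n → k), IsStable ρ U →
    ∃ U' : Submodule k (Fin n → k), IsStable ρ U' ∧ IsCompl U U'

end Pool.Agent.U922.SF
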