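import Pool.Agent.U922.SF.Main

/-!
# Finiteness of the polarized systems with generic Frobenius elements at two primes: the theorems
-/

set_option autoImplicit false
set_option linter.unusedSectionVars false

namespace Pool.Agent.U922.SF

open Module Matrix Polynomial NumberField Pool.Agent.Y800 Pool.Agent.R390.SF IntegralSystem
open Pool.Agent.Y126.SH (chi exists_reps)

attribute [local instance] Subgroup.fintypeQuotientOfFiniteIndex

variable {F : SubFld ℚ} [hF : FiniteDimensional ℚ F] {n : ℕ} {S S' : Finset ℕ} {w : ℕ}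

/-- the Frobenius polynomials are determined by the traces -/
theorem poly_eq {T T' : IntegralSystem F n} (hT : T.GoodSystem S w) (hT' : T'.GoodSystem S w)
    (htr : ∀ (ℓ : ℕ) [Fact ℓ.Prime] (g : F.fixingSubgroup),
      (T.rat ℓ g : Matrix (Fin n) (Fin n) ℚ_[ℓ]).trace =
        (T'.rat ℓ g : Matrix (Fin n) (Fin n) ℚ_[ℓ]).trace)
    {p : ℕ} (hp : p.Prime) (hpS : p ∉ S) {P : Ideal ZBar} (hP : P.IsMaximal)
    (hpP : (p : ZBar) ∈ P) {σ : GQ} (hσ : IsGeomFrob p P σ)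
    (hσc : σ ∈ (F.fixingSubgroup).normalCore) (x : GQ ⧸ F.fixingSubgroup) :
    T.poly ((cj x.out P).under (𝓞 F)) = T'.poly ((cj x.out P).under (𝓞 F)) := by
  obtain ⟨ℓ, hℓ, hℓp⟩ : ∃ ℓ : ℕ, ℓ.Prime ∧ ℓ ≠ p := by
    by_cases h : p = 2
    · exact ⟨3, Nat.prime_three, by omega⟩
    · exact ⟨2, Nat.prime_two, fun h' => h h'.symm⟩
  have : Fact ℓ.Prime := ⟨hℓ⟩
  let y : F.fixingSubgroup := ⟨x.out⁻¹ * σ * x.out, core_conj hσc x.out⟩
  have hy : IsGeomFrob p (cj x.out P) (y : GQ) := cj_frob hσ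
  have h3 := charpoly_of_traces (T.rat ℓ) (T'.rat ℓ) (htr ℓ) y
  rw [charpoly_frob_rat hT hp hpS hℓp (cj_max hP) (cj_nat.2 hpP) hy,
    charpoly_frob_rat hT' hp hpS hℓp (cj_max hP) (cj_nat.2 hpP) hy] at h3
  exact Polynomial.map_injective _ (RingHom.injective_int (Int.castRingHom ℚ_[ℓ])) h3

/-- **Finiteness.** -/
theorem finiteness (hn : 0 < n) (w : ℕ) (S S' : Finset ℕ) :
    ∃ (m : ℕ) (T : Fin m → IntegralSystem F n), (∀ i, InClass S S' w (T i)) ∧
      ∀ T' : IntegralSystem F n, InClass S S' w T' → ∃ i, Isomorphic (T i) T' := by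
  classical
  obtain ⟨𝒯, h𝒯, hdet⟩ := traces_of_finite (F := F) hn S
  refine exists_reps (fun T : IntegralSystem F n => InClass S S' w T)
    (fun T T' => Isomorphic T T')
    (fun T => fun x : 𝒯 × Fin (n + 1) => (T.poly x.1).coeff x.2) ?_ ?_
  · refine (Set.Finite.pi' (t := fun x : 𝒯 × Fin (n + 1) => Set.Icc
      (-((Nat.card (𝓞 F ⧸ (x.1 : Ideal (𝓞 F))) ^ w) ^ n * n.choose (n / 2) : ℕ) : ℤ)
      (((Nat.card (𝓞 F ⧸ (x.1 : Ideal (𝓞 F))) ^ w) ^ n * n.choose (n / 2) : ℕ) : ℤ))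
      (fun p => Set.finite_Icc _ _)).subset ?_
    rintro _ ⟨T, hT, rfl⟩ x
    obtain ⟨h1, r, hr, hrS, h2⟩ := h𝒯 x.1 x.1.2
    exact abs_le.1 (coeff_bound hT.toGoodSystem hr hrS h1 h2 x.2)
  · intro T0 hT0
    obtain ⟨p, q, hp, hq, hpq, hpS, hqS, ⟨P, σ, hP, hpP, hσ, hσc, hrel⟩, -⟩ := hT0.generic
    obtain ⟨M, hM0, hM⟩ := exists_M hT0.toGoodSystem hp hpS hP hpP hσ hσc (w * n)
    obtain ⟨M', hM0', hM'⟩ := rel_multi (monic_at hT0.toGoodSystem hp hpS hP hpP) (w := w)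
      hp.one_lt (expo_pos (G := GQ) (H := F.fixingSubgroup)) (w * (finrank ℚ F * n))
    let N : ℕ := max (S'.sup id) (max p (max M.natAbs M'.natAbs))
    choose k c hk hc using local_code2 (Λ := Set.univ) (T0 := T0)
      (fun ℓ hℓ _ => semis_rat' hT0 ℓ)
    obtain ⟨K, ⟨e⟩⟩ := Finite.exists_equiv_fin (∀ ℓ : Fin (N + 1), Fin (k ℓ))
    refine ⟨K, fun T => (e fun ℓ => ⟨c ℓ T, hk ℓ T⟩ : ℕ), fun T => Fin.is_lt _, ?_⟩
    intro T T' hT hT' hi hi' hcode ℓ hℓ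
    have htr : ∀ T : IntegralSystem F n, InClass S S' w T →
        ((fun x : 𝒯 × Fin (n + 1) => (T.poly x.1).coeff x.2) =
          fun x : 𝒯 × Fin (n + 1) => (T0.poly x.1).coeff x.2) →
        ∀ (ℓ : ℕ) [Fact ℓ.Prime] (g : F.fixingSubgroup),
          (T.rat ℓ g : Matrix (Fin n) (Fin n) ℚ_[ℓ]).trace =
            (T0.rat ℓ g : Matrix (Fin n) (Fin n) ℚ_[ℓ]).trace := by
      intro T hT hi
      refine hdet w w T T0 hT.toGoodSystem hT0.toGoodSystem (fun 𝔭 h𝔭 => ?_)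
      exact congrFun hi (⟨𝔭, h𝔭⟩, ⟨n - 1, by omega⟩)
    have key : ∀ T : IntegralSystem F n, InClass S S' w T →
        ((fun x : 𝒯 × Fin (n + 1) => (T.poly x.1).coeff x.2) =
          fun x : 𝒯 × Fin (n + 1) => (T0.poly x.1).coeff x.2) →
        ∃ B : Matrix (Fin n) (Fin n) ℤ_[ℓ], Inter T0 T ℓ B := by
      intro T hT hi
      exact exists_inter (semis_rat' hT0 ℓ) (semis_rat' hT ℓ) (htr T hT hi ℓ)
    have key2 : N < ℓ → ∀ T : IntegralSystem F n, InClass S S' w T →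
        ((fun x : 𝒯 × Fin (n + 1) => (T.poly x.1).coeff x.2) =
          fun x : 𝒯 × Fin (n + 1) => (T0.poly x.1).coeff x.2) →
        ∃ J : Matrix (Fin n) (Fin n) ℤ_[ℓ], T.IsPolarization w ℓ J ∧ IsUnit J.det ∧
          NoIso (toF (T.rho ℓ)) (rd J) := by
      intro hN T hT hi
      simp only [N, max_lt_iff] at hN
      obtain ⟨h1, h2, h3, h4⟩ := hN
      have hpe : ∀ x : GQ ⧸ F.fixingSubgroup, T.poly ((cj x.out P).under (𝓞 F)) =
          T0.poly ((cj x.out P).under (𝓞 F)) := fun x =>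
        poly_eq hT.toGoodSystem hT0.toGoodSystem (htr T hT hi) hp hpS hP hpP hσ hσc x
      refine noiso_res' hT.toPolarizedPure
        (fun h5 => absurd (Finset.le_sup (f := id) h5) (not_le.2 h1)) hp hpS
        (by omega) hP hpP hσ hσc (M := M) (M' := M') (ne_zero_mod hM0 h3) (ne_zero_mod hM0' h4)
        ?_ ?_ ?_
      · intro Ω _ _ hMΩ A a ha hA hprod
        refine hM Ω hMΩ A a ha (fun q => ?_) hprod
        rw [← hpe q]
        exact hA q
      · intro Ω _ _ hMΩ A a ha hA hprod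
        obtain ⟨A', h5, h6, h7⟩ := hM' Ω hMΩ A a ha (fun q => by
          rw [← hpe q]
          exact hA q) hprod
        exact ⟨A', h5, fun x => by
          rw [hpe x]
          exact h6 x, h7⟩
      · rintro d ⟨A, a, N', h5, h6, h7, h8⟩
        exact hrel d ⟨A, a, N', h5, h6, fun x => ⟨(h7 x).1, by
          rw [← hpe x]
          exact (h7 x).2⟩, h8⟩
    have h1 := key T hT hi
    have h2 := key T' hT' hi'
    by_cases hℓN : ℓ ≤ N
    · have h3 := e.injective (Fin.ext hcode)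
      have h4 := congrFun h3 ⟨ℓ, Nat.lt_succ_of_le hℓN⟩
      exact hc ℓ T T' (Set.mem_univ _) h1 h2 (congrArg Fin.val h4)
    · obtain ⟨B, hB, hBρ⟩ := h1
      obtain ⟨B', hB', hBρ'⟩ := h2
      obtain ⟨J0, hJ0, -, hn0⟩ := key2 (not_le.1 hℓN) T0 hT0 rfl
      obtain ⟨J, hJ, hJu, hn⟩ := key2 (not_le.1 hℓN) T hT hi
      obtain ⟨J', hJ', hJu', hn'⟩ := key2 (not_le.1 hℓN) T' hT' hi'
      obtain ⟨A, hA⟩ := uniq hJu hJ.equivariant hJ0.equivariant hn hn0 hB hBρ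
      obtain ⟨A', hA'⟩ := uniq hJu' hJ'.equivariant hJ0.equivariant hn' hn0 hB' hBρ'
      refine ⟨A' * A⁻¹, fun g => ?_⟩
      rw [hA, hA']
      group

/-- **Semisimplicity.** -/
theorem semisimple {T : IntegralSystem F n} (hT : InClass S S' w T) :
    (∀ (ℓ : ℕ) [Fact ℓ.Prime], Semisimple (T.rat ℓ)) ∧
      ∃ N : ℕ, ∀ (ℓ : ℕ) [Fact ℓ.Prime], N < ℓ → Semisimple (T.res ℓ) := by
  refine ⟨fun ℓ _ => semis_rat' hT ℓ, ?_⟩
  obtain ⟨p, q, hp, hq, hpq, hpS, hqS, ⟨P, σ, hP, hpP, hσ, hσc, hrel⟩, -⟩ := hT.generic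
  obtain ⟨M, hM0, hM⟩ := exists_M hT.toGoodSystem hp hpS hP hpP hσ hσc (w * n)
  obtain ⟨M', hM0', hM'⟩ := rel_multi (monic_at hT.toGoodSystem hp hpS hP hpP) (w := w)
    hp.one_lt (expo_pos (G := GQ) (H := F.fixingSubgroup)) (w * (finrank ℚ F * n))
  refine ⟨max (S'.sup id) (max p (max M.natAbs M'.natAbs)), ?_⟩
  intro ℓ hℓ hN
  simp only [max_lt_iff] at hN
  obtain ⟨h1, h2, h3, h4⟩ := hN
  obtain ⟨J, hJ, -, hn⟩ := noiso_res' hT.toPolarizedPure
    (fun h5 => absurd (Finset.le_sup (f := id) h5) (not_le.2 h1)) hp hpS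
    (by omega) hP hpP hσ hσc (M := M) (M' := M') (ne_zero_mod hM0 h3) (ne_zero_mod hM0' h4)
    hM hM' hrel
  exact fun U hU => ⟨_, orth_stable (equi_res hJ) hU, isCompl_orth (equi_res hJ) hn hU⟩

/-- in rank at most three and odd total weight the Frobenius elements are generic -/
theorem generic_of_odd {T : IntegralSystem F n} (hT : T.GoodSystem S w)
    (hodd : Odd (w * finrank ℚ F)) (hn3 : n ≤ 3) {p : ℕ} (hp : p.Prime) (hpS : p ∉ S)
    {P : Ideal ZBar} (hP : P.IsMaximal) (hpP : (p : ZBar) ∈ P) {σ : GQ} (hσ : IsGeomFrob p P σ)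
    (hσc : σ ∈ (F.fixingSubgroup).normalCore) : GenericAt w p T := by
  refine ⟨P, σ, hP, hpP, hσ, hσc, ?_⟩
  rintro d ⟨A, a, N, -, ha, hA, -⟩
  obtain ⟨h1, h2⟩ := hA ((1 : GQ) : GQ ⧸ F.fixingSubgroup)
  have h3 := Multiset.card_le_card h2
  rw [Multiset.card_add, Multiset.card_map, h1] at h3
  have hm := monic_at hT hp hpS hP hpP ((1 : GQ) : GQ ⧸ F.fixingSubgroup)
  have hdeg : (T.poly ((cj ((1 : GQ) : GQ ⧸ F.fixingSubgroup).out P).under (𝓞 F))).natDegree = n := by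
    have hpm : (p : 𝓞 F) ∈ (cj ((1 : GQ) : GQ ⧸ F.fixingSubgroup).out P).under (𝓞 F) := by
      rw [mem_under, map_natCast]
      exact cj_nat.2 hpP
    have h5 : (cj ((1 : GQ) : GQ ⧸ F.fixingSubgroup).out P).IsMaximal := cj_max hP
    exact (hT.good p hp hpS _ (Ideal.IsMaximal.under (𝓞 F) _) hpm).natDegree
  have h4 := Polynomial.card_roots' ((T.poly ((cj ((1 : GQ) : GQ ⧸
    F.fixingSubgroup).out P).under (𝓞 F))).map (algebraMap ℤ ℂ))
  rw [hm.natDegree_map, hdeg, ← aroots_def] at h4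
  have h5 : d + d ≤ 3 := by omega
  have h6 : d ≤ 1 := by omega
  rcases Nat.le_one_iff_eq_zero_or_eq_one.1 h6 with h7 | h7
  · exact h7
  · exfalso
    rw [h7, mul_one] at ha
    obtain ⟨c, hc⟩ := hodd
    omega

theorem inClass_of_odd {T : IntegralSystem F n} (hT : PolarizedPure S S' w T)
    (hodd : Odd (w * finrank ℚ F)) (hn3 : n ≤ 3) : InClass S S' w T where
  toPolarizedPure := hT
  generic := by
    obtain ⟨p, hp, hpS, P, hP, hpP, σ, hσ, hσc⟩ := exists_core (F := F) S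
    obtain ⟨q, hq, hqS', Q, hQ, hqQ, τ, hτ, hτc⟩ := exists_core (F := F) (S ∪ {p})
    have hqS : q ∉ S := fun h => hqS' (Finset.mem_union_left _ h)
    have hpq : p ≠ q := fun h => hqS' (Finset.mem_union_right _ (Finset.mem_singleton.2 h.symm))
    exact ⟨p, q, hp, hq, hpq, hpS, hqS,
      generic_of_odd hT.toGoodSystem hodd hn3 hp hpS hP hpP hσ hσc,
      generic_of_odd hT.toGoodSystem hodd hn3 hq hqS hQ hqQ hτ hτc⟩

end Pool.Agent.U922.SF
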