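import Pool.Agent.Y126.SH.Rel

/-!
# Relations between the roots of several integral polynomials modulo almost all primes
-/

set_option autoImplicit false

namespace Pool.Agent.U922.SF

open Polynomial NumberField Pool.Agent.Y800 Pool.Agent.Y126.SH

/-- For almost all characteristics the relations come from complex relations. -/
theorem rel_multi {I : Type*} [Fintype I] {R : I → ℤ[X]} (hR : ∀ i, (R i).Monic) {p w : ℕ}
    (hp : 1 < p) {N : ℕ} (hN : 0 < N) (B : ℕ) :
    ∃ M : ℤ, M ≠ 0 ∧ ∀ (Ω : Type) [Field Ω] [IsAlgClosed Ω], (M : Ω) ≠ 0 →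
      ∀ (A : I → Multiset Ω) (a : ℕ), a ≤ B →
        (∀ i, A i + (A i).map (fun z => ((p ^ w : ℕ) : Ω) / z) ≤
          ((R i).map (Int.castRingHom Ω)).roots) →
        (∏ i, (A i).prod) ^ N = (p : Ω) ^ (a * N) →
        ∃ A' : I → Multiset ℂ, (∀ i, Multiset.card (A' i) = Multiset.card (A i)) ∧
          (∀ i, A' i + (A' i).map (fun z => ((p ^ w : ℕ) : ℂ) / z) ≤ (R i).aroots ℂ) ∧
          (∏ i, (A' i).prod) ^ N = (p : ℂ) ^ (a * N) := by
  classical
  choose Q hQ using fun i => exists_roots (hR i)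
  let E : Finset ZBar :=
    (Finset.univ.biUnion fun i =>
      ((Q i ×ˢ Q i).map fun x : ZBar × ZBar => x.1 * x.2 - ((p ^ w : ℕ) : ZBar)).toFinset) ∪
    ((Fintype.piFinset fun i => (Q i).powerset.toFinset) ×ˢ Finset.range (B + 1)).image
      fun x : (I → Multiset ZBar) × ℕ => (∏ i, (x.1 i).prod) ^ N - (p : ZBar) ^ (x.2 * N)
  have hm : ∀ e : ZBar, ∃ m : ℤ, e ≠ 0 → (m ≠ 0 ∧ ∃ r, e * r = m) := by
    intro e
    by_cases he : e = 0
    · exact ⟨0, fun h => absurd he h⟩
    · obtain ⟨m, r, h1, h2⟩ := exists_int_mul he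
      exact ⟨m, fun _ => ⟨h1, r, h2⟩⟩
  choose m hm using hm
  refine ⟨p * ∏ e ∈ E.filter (fun e => e ≠ 0), m e, ?_, ?_⟩
  · apply mul_ne_zero
    · exact_mod_cast (by omega : p ≠ 0)
    · rw [Finset.prod_ne_zero_iff]
      intro e he
      exact (hm e (Finset.mem_filter.1 he).2).1
  intro Ω _ _ hM A a ha hA hprod
  obtain ⟨ψ, hψ⟩ := extend_gen (R := ℤ) (S := ZBar) (k := Ω) (Int.castRingHom Ω)
  have hψi : ∀ i : ℤ, ψ (i : ZBar) = (i : Ω) := fun i => map_intCast ψ i
  rw [Int.cast_mul, Int.cast_natCast] at hM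
  have hpΩ : (p : Ω) ≠ 0 := left_ne_zero_of_mul hM
  have hgood : ∀ e ∈ E, ψ e = 0 → e = 0 := by
    intro e he h0
    by_contra hne
    apply right_ne_zero_of_mul hM
    rw [Int.cast_prod]
    apply Finset.prod_eq_zero (Finset.mem_filter.2 ⟨he, hne⟩)
    obtain ⟨_, r, hr⟩ := hm e hne
    rw [← hψi, ← hr, map_mul, h0, zero_mul]
  have hA1 : ∀ i, ∃ T T' : Multiset ZBar, T + T' ≤ Q i ∧ T.map ψ = A i ∧
      T'.map ψ = (A i).map (fun z => ((p ^ w : ℕ) : Ω) / z) := by
    intro i
    have h1 := hA i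
    rw [roots_map (hQ i) ψ] at h1
    exact exists_add_le_map ψ h1
  choose T T' hTT hT hT' using hA1
  have hTR : ∀ i, T i ≤ Q i := fun i => (Multiset.le_add_right _ _).trans (hTT i)
  have hTR' : ∀ i, T' i ≤ Q i := fun i => (Multiset.le_add_left _ _).trans (hTT i)
  -- the elements of `T` do not vanish
  have hA0 : ∀ i, (A i).prod ≠ 0 := by
    intro i h0
    have h1 : (∏ i, (A i).prod) = 0 := Finset.prod_eq_zero (Finset.mem_univ i) h0
    rw [h1, zero_pow hN.ne'] at hprod
    exact pow_ne_zero _ hpΩ hprod.symm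
  have hne : ∀ i, ∀ t ∈ T i, ψ t ≠ 0 := by
    intro i t ht h0
    apply hA0 i
    refine Multiset.prod_eq_zero ?_
    rw [← h0, ← hT i]
    exact Multiset.mem_map_of_mem ψ ht
  have hrel : ∀ i, Multiset.Rel (fun t t' => t * t' = ((p ^ w : ℕ) : ZBar)) (T i) (T' i) := by
    intro i
    have h1 : Multiset.Rel (fun x y => x = y) ((A i).map (fun z => ((p ^ w : ℕ) : Ω) / z))
      ((T' i).map ψ) := Multiset.rel_eq.2 (hT' i).symm
    rw [← hT i, Multiset.map_map, Multiset.rel_map] at h1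
    refine h1.mono ?_
    intro t ht t' ht' h2
    rw [Function.comp_apply, div_eq_iff (hne i t ht)] at h2
    rw [← sub_eq_zero]
    apply hgood
    · apply Finset.mem_union_left
      rw [Finset.mem_biUnion]
      refine ⟨i, Finset.mem_univ i, ?_⟩
      rw [Multiset.mem_toFinset]
      exact Multiset.mem_map.2 ⟨(t, t'), Multiset.mem_product.2
        ⟨Multiset.mem_of_le (hTR i) ht, Multiset.mem_of_le (hTR' i) ht'⟩, rfl⟩
    · rw [map_sub, map_mul, map_natCast, h2]
      ring
  have hTp : (∏ i, (T i).prod) ^ N = (p : ZBar) ^ (a * N) := by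
    rw [← sub_eq_zero]
    apply hgood
    · apply Finset.mem_union_right
      rw [Finset.mem_image]
      refine ⟨(T, a), ?_, rfl⟩
      rw [Finset.mem_product]
      refine ⟨Fintype.mem_piFinset.2 fun i => ?_, Finset.mem_range.2 (by omega)⟩
      rw [Multiset.mem_toFinset, Multiset.mem_powerset]
      exact hTR i
    · rw [map_sub, map_pow, map_pow, map_natCast, ← hprod, map_prod,
        Finset.prod_congr rfl fun i _ => by rw [map_multiset_prod, hT i], sub_self]
  -- complex numbers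
  obtain ⟨ι, _⟩ := extend_gen (R := ℤ) (S := ZBar) (k := ℂ) (Int.castRingHom ℂ)
  have hroots : ∀ i, (R i).aroots ℂ = (Q i).map ι := fun i => roots_map (hQ i) ι
  have hs : ((p ^ w : ℕ) : ℂ) ≠ 0 := by
    exact_mod_cast pow_ne_zero w (by omega : p ≠ 0)
  have hdual : ∀ i, ((T i).map ι).map (fun z => ((p ^ w : ℕ) : ℂ) / z) = (T' i).map ι := by
    intro i
    apply Multiset.rel_eq.1
    rw [Multiset.map_map, Multiset.rel_map]
    refine (hrel i).mono ?_
    intro t _ t' _ h2
    have h3 : ι t * ι t' = ((p ^ w : ℕ) : ℂ) := by rw [← map_mul, h2, map_natCast]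
    rw [Function.comp_apply, div_eq_iff (left_ne_zero_of_mul (h3 ▸ hs)), ← h3, mul_comm]
  refine ⟨fun i => (T i).map ι, ?_, ?_, ?_⟩
  · intro i
    rw [Multiset.card_map, ← hT i, Multiset.card_map]
  · intro i
    rw [hdual i, ← Multiset.map_add, hroots i]
    exact Multiset.map_le_map (hTT i)
  · have h1 := congrArg ι hTp
    rw [map_pow, map_pow, map_natCast, map_prod,
      Finset.prod_congr rfl fun i _ => map_multiset_prod ι (T i)] at h1
    exact h1

end Pool.Agent.U922.SF
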