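import Pool.Agent.U922.SF.Defs
import Pool.Agent.U922.SF.Rel
import Pool.Agent.R390.SF.PolMain

/-!
# Finiteness of the polarized systems with generic Frobenius elements at two primes
-/

set_option autoImplicit false
set_option linter.unusedSectionVars false

namespace Pool.Agent.U922.SF

open Module Matrix Polynomial NumberField Pool.Agent.Y800 Pool.Agent.R390.SF IntegralSystem
open Pool.Agent.Y126.SH (chi exists_reps)

attribute [local instance] Subgroup.fintypeQuotientOfFiniteIndex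

section core

variable {F : SubFld ℚ} [hF : FiniteDimensional ℚ F] {n : ℕ} {S : Finset ℕ} {w : ℕ}
  {T : IntegralSystem F n} {ℓ : ℕ} [hℓ : Fact ℓ.Prime]
  {k : Type} [Field k] (ψ : ℤ_[ℓ] →+* k)

/-- **There are no isotropic stable subspaces.** -/
theorem noiso_gen (hT : T.GoodSystem S w) {J : Matrix (Fin n) (Fin n) ℤ_[ℓ]}
    (hJ : T.IsPolarization w ℓ J) (hJk : ψ J.det ≠ 0)
    (hwt : ∀ (U : Submodule k (Fin n → k)) (hU : IsStable (rep ψ T) U),
      Wt ψ w (finrank k U) (detChar (rep ψ T) U hU))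
    {p : ℕ} (hp : p.Prime) (hpS : p ∉ S) (hpℓ : ℓ ≠ p) {P : Ideal ZBar} (hP : P.IsMaximal)
    (hpP : (p : ZBar) ∈ P) {σ : GQ} (hσ : IsGeomFrob p P σ)
    (hσc : σ ∈ (F.fixingSubgroup).normalCore) {M : ℤ} (hMk : (M : k) ≠ 0)
    (hM : ∀ (Ω : Type) [Field Ω] [IsAlgClosed Ω], (M : Ω) ≠ 0 →
      ∀ (A : (GQ ⧸ F.fixingSubgroup) → Multiset Ω) (a : ℕ), a ≤ w * (finrank ℚ F * n) →
        (∀ x, A x + (A x).map (fun z => ((p ^ w : ℕ) : Ω) / z) ≤
          ((T.poly ((cj x.out P).under (𝓞 F))).map (Int.castRingHom Ω)).roots) →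
        (∏ x, (A x).prod) ^ expo F.fixingSubgroup = (p : Ω) ^ (a * expo F.fixingSubgroup) →
        ∃ A' : (GQ ⧸ F.fixingSubgroup) → Multiset ℂ,
          (∀ x, Multiset.card (A' x) = Multiset.card (A x)) ∧
          (∀ x, A' x + (A' x).map (fun z => ((p ^ w : ℕ) : ℂ) / z) ≤
            (T.poly ((cj x.out P).under (𝓞 F))).aroots ℂ) ∧
          (∏ x, (A' x).prod) ^ expo F.fixingSubgroup = (p : ℂ) ^ (a * expo F.fixingSubgroup))
    (hrel : ∀ d, IsotropicRelation F w p T.poly P d → d = 0) :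
    NoIso (rep ψ T) (J.map ψ) := by
  classical
  intro U hU hiso
  obtain ⟨a, ha, hW⟩ := hwt U hU
  have hprod := hW p hp hpℓ P hP hpP σ hσ
  let y : (GQ ⧸ F.fixingSubgroup) → F.fixingSubgroup := fun q => ⟨q.out⁻¹ * σ * q.out,
    core_conj hσc q.out⟩
  have hy : ∀ q, IsGeomFrob p (cj q.out P) (y q) := fun q => cj_frob hσ
  have hzy : ∀ q, zz σ q = y q ^ expo F.fixingSubgroup := by
    intro q
    apply Subtype.ext
    show q.out⁻¹ * σ ^ expo F.fixingSubgroup * q.out = ((y q ^ expo F.fixingSubgroup :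
      F.fixingSubgroup) : GQ)
    rw [SubmonoidClass.coe_pow]
    show _ = (q.out⁻¹ * σ * q.out) ^ expo F.fixingSubgroup
    have h3 := conj_pow (i := expo F.fixingSubgroup) (a := (q.out)⁻¹) (b := σ)
    rw [inv_inv] at h3
    exact h3.symm
  have hUy : ∀ q, U ≤ U.comap (lin (rep ψ T) (y q)) := fun q u hu => hU (y q) u hu
  let B := Matrix.toBilin' (J.map ψ)
  have hchi : ∀ g : GQ, ψ (chi ℓ g : ℤ_[ℓ]) ≠ 0 := fun g => (chik ψ g).ne_zero
  have hB : ∀ (g : F.fixingSubgroup) x z, B (lin (rep ψ T) g x) (lin (rep ψ T) g z) =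
      ((ψ (chi ℓ (g : GQ) : ℤ_[ℓ])) ^ w)⁻¹ * B x z := by
    intro g x z
    have h1 := congrArg (fun X => Matrix.map X ψ) (hJ.equivariant g)
    have h2 : (ψ (chi ℓ (g : GQ) : ℤ_[ℓ])) ^ w •
        ((rep ψ T g : Matrix (Fin n) (Fin n) k).transpose *
        J.map ψ * (rep ψ T g : Matrix (Fin n) (Fin n) k)) = J.map ψ := by
      refine Eq.trans ?_ h1
      have h3 : ∀ (c : ℤ_[ℓ]) (X : Matrix (Fin n) (Fin n) ℤ_[ℓ]), (c • X).map ψ = ψ c • X.map ψ := by
        intro c X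
        ext i j
        simp
      show _ = ((chi ℓ (g : GQ) : ℤ_[ℓ]) ^ w •
        ((T.rho ℓ g : Matrix (Fin n) (Fin n) ℤ_[ℓ]).transpose * J * (T.rho ℓ g))).map ψ
      rw [h3, map_pow, Matrix.map_mul, Matrix.map_mul, rep_val, Matrix.transpose_map]
    have h4 : B (lin (rep ψ T) g x) (lin (rep ψ T) g z) = Matrix.toBilin'
        ((rep ψ T g : Matrix (Fin n) (Fin n) k).transpose * J.map ψ *
          (rep ψ T g : Matrix (Fin n) (Fin n) k)) x z := by
      rw [← Matrix.toBilin'_comp]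
      rfl
    rw [h4, eq_inv_mul_iff_mul_eq₀ (pow_ne_zero _ (hchi g))]
    conv_rhs => rw [show B = Matrix.toBilin' (J.map ψ) from rfl, ← h2, map_smul]
    rfl
  have hchip : ∀ q, ψ (chi ℓ (y q : GQ) : ℤ_[ℓ]) * (p : k) = 1 := by
    intro q
    have h1 := congrArg ψ (Pool.Agent.Y126.SH.chi_frob hp hpℓ (cj_max hP) (cj_nat.2 hpP) (hy q))
    rwa [map_mul, map_natCast, map_one] at h1
  have hpk : (p : k) ≠ 0 := right_ne_zero_of_mul_eq_one (hchip ((1 : GQ) : GQ ⧸ F.fixingSubgroup))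
  have hs0 : ((p ^ w : ℕ) : k) ≠ 0 := by
    rw [Nat.cast_pow]; exact pow_ne_zero _ hpk
  have hBy : ∀ q x z, B (lin (rep ψ T) (y q) x) (lin (rep ψ T) (y q) z) =
      ((p ^ w : ℕ) : k) * B x z := by
    intro q x z
    rw [hB]
    congr 1
    rw [inv_eq_iff_eq_inv, Nat.cast_pow, ← inv_pow]
    congr 1
    exact eq_inv_of_mul_eq_one_left (hchip q)
  have hnd : B.Nondegenerate := by
    apply LinearMap.BilinForm.nondegenerate_toBilin'_of_det_ne_zero'
    have : (J.map ψ).det = ψ J.det := (RingHom.map_det ψ J).symm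
    rwa [this]
  have hUo : U ≤ B.orthogonal U := by
    intro z hz x hx
    show Matrix.toBilin' (J.map ψ) x z = 0
    rw [Matrix.toBilin'_apply']
    exact hiso x hx z hz
  have hroots := fun q => Pool.Agent.Y126.SH.roots_isotropic (Ω := AlgebraicClosure k) hnd hs0
    (hBy q) (hUy q) hUo
  have hpoly : ∀ q, (lin (rep ψ T) (y q)).charpoly.aroots (AlgebraicClosure k) =
      ((T.poly ((cj q.out P).under (𝓞 F))).map (Int.castRingHom (AlgebraicClosure k))).roots := by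
    intro q
    rw [charpoly_frob ψ hT hp hpS hpℓ (cj_max hP) (cj_nat.2 hpP) (hy q), aroots_def,
      Polynomial.map_map]
    congr 2
  have hMΩ : (M : AlgebraicClosure k) ≠ 0 := by
    rw [← map_intCast (algebraMap k (AlgebraicClosure k))]
    exact (_root_.map_ne_zero _).2 hMk
  have hdle : finrank k U ≤ n := by
    have := Submodule.finrank_le U
    rwa [finrank_fin_fun] at this
  have hale : a ≤ w * (finrank ℚ F * n) := by
    have h1 : w * (finrank ℚ F * finrank k U) ≤ w * (finrank ℚ F * n) :=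
      Nat.mul_le_mul_left _ (Nat.mul_le_mul_left _ hdle)
    omega
  obtain ⟨A', hA1, hA2, hA3⟩ := hM (AlgebraicClosure k) hMΩ
    (fun q => ((lin (rep ψ T) (y q)).restrict (hUy q)).charpoly.aroots (AlgebraicClosure k))
    a hale (fun q => by
      have h1 := (hroots q).1
      rw [hpoly q, map_natCast] at h1
      exact h1) (by
      have h6 := congrArg (algebraMap k (AlgebraicClosure k)) hprod
      rw [map_prod, map_pow, map_natCast] at h6
      rw [mul_comm a, ← h6, ← Finset.prod_pow]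
      refine Finset.prod_congr rfl fun q _ => ?_
      rw [(hroots q).2.1, hzy q, map_pow, Units.val_pow_eq_pow_val, map_pow]
      rfl)
  have hd := hrel (finrank k U) ⟨A', a, expo F.fixingSubgroup, expo_pos, ha,
    fun x => ⟨(hA1 x).trans (hroots x).2.2, hA2 x⟩, by
      rw [finprod_eq_prod_of_fintype]
      exact hA3⟩
  exact Submodule.finrank_eq_zero.1 hd

end core

section single

variable {F : SubFld ℚ} {n : ℕ} {S S' : Finset ℕ} {w : ℕ} {T : IntegralSystem F n}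

theorem pure_of (hT : PolarizedPure S S' w T) : T.PureSystem S w where
  toGoodSystem := hT.toGoodSystem
  semistable := hT.semistable
  weights := fun ℓ _ => (hT.rational ℓ).2
  residualWeights := by
    refine ⟨S'.sup id, fun ℓ _ hlt => ?_⟩
    have h1 : ℓ ∉ S' := fun h => absurd (Finset.le_sup (f := id) h) (not_le.2 hlt)
    exact (hT.residual ℓ h1).2

variable [hF : FiniteDimensional ℚ F]

theorem monic_at (hT : T.GoodSystem S w) {p : ℕ} (hp : p.Prime) (hpS : p ∉ S) {P : Ideal ZBar}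
    (hP : P.IsMaximal) (hpP : (p : ZBar) ∈ P) (x : GQ ⧸ F.fixingSubgroup) :
    (T.poly ((cj x.out P).under (𝓞 F))).Monic := by
  have h1 : (cj x.out P).IsMaximal := cj_max hP
  have hpm : (p : 𝓞 F) ∈ (cj x.out P).under (𝓞 F) := by
    rw [mem_under, map_natCast]
    exact cj_nat.2 hpP
  exact (hT.good p hp hpS _ (Ideal.IsMaximal.under (𝓞 F) _) hpm).monic

theorem noiso_rat' (hT : InClass S S' w T) (ℓ : ℕ) [hℓ : Fact ℓ.Prime] :
    ∃ J : Matrix (Fin n) (Fin n) ℚ_[ℓ], Equi (T.rat ℓ) J ∧ NoIso (T.rat ℓ) J := by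
  obtain ⟨p, q, hp, hq, hpq, hpS, hqS, gp, gq⟩ := hT.generic
  obtain ⟨r, hr, hrS, hℓr, gr⟩ : ∃ r : ℕ, r.Prime ∧ r ∉ S ∧ ℓ ≠ r ∧ GenericAt w r T := by
    by_cases h : ℓ = p
    · exact ⟨q, hq, hqS, fun h' => hpq (h.symm.trans h'), gq⟩
    · exact ⟨p, hp, hpS, h, gp⟩
  obtain ⟨P, σ, hP, hrP, hσ, hσc, hrel⟩ := gr
  obtain ⟨J, hJ⟩ := (hT.rational ℓ).1
  obtain ⟨M, hM0, hM⟩ := rel_multi (monic_at hT.toGoodSystem hr hrS hP hrP) (w := w) hr.one_lt
    (expo_pos (G := GQ) (H := F.fixingSubgroup)) (w * (finrank ℚ F * n))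
  refine ⟨_, equi_rat hJ, noiso_gen (algebraMap ℤ_[ℓ] ℚ_[ℓ]) hT.toGoodSystem hJ ?_
    (fun U hU => rat_wt (pure_of hT.toPolarizedPure) U hU) hr hrS hℓr hP hrP hσ hσc (M := M)
    (by exact_mod_cast hM0) hM hrel⟩
  intro h
  exact hJ.nondegenerate ((injective_iff_map_eq_zero _).1 (IsFractionRing.injective ℤ_[ℓ] ℚ_[ℓ]) _ h)

theorem semis_rat' (hT : InClass S S' w T) (ℓ : ℕ) [hℓ : Fact ℓ.Prime] : Semis (T.rat ℓ) := by
  obtain ⟨J, h1, h2⟩ := noiso_rat' hT ℓ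
  exact fun U hU => ⟨orth J U, orth_stable h1 hU, isCompl_orth h1 h2 hU⟩

theorem noiso_res' (hT : PolarizedPure S S' w T) {ℓ : ℕ} [hℓ : Fact ℓ.Prime] (hℓS : ℓ ∉ S')
    {p : ℕ} (hp : p.Prime) (hpS : p ∉ S) (hpℓ : ℓ ≠ p) {P : Ideal ZBar} (hP : P.IsMaximal)
    (hpP : (p : ZBar) ∈ P) {σ : GQ} (hσ : IsGeomFrob p P σ)
    (hσc : σ ∈ (F.fixingSubgroup).normalCore) {M M' : ℤ} (hMk : (M : ZMod ℓ) ≠ 0)
    (hMk' : (M' : ZMod ℓ) ≠ 0)
    (hM : ∀ (Ω : Type) [Field Ω] [IsAlgClosed Ω], (M : Ω) ≠ 0 →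
      ∀ (A : (GQ ⧸ F.fixingSubgroup) → Multiset Ω) (a : ℕ),
        a ≤ expo F.fixingSubgroup * (finrank ℚ F * (w * n)) →
        (∀ q, A q ≤ ((T.poly ((cj q.out P).under (𝓞 F))).map (Int.castRingHom Ω)).roots) →
        ∏ q, (A q).prod ^ expo F.fixingSubgroup = (p : Ω) ^ a →
          a * 2 = ∑ q, expo F.fixingSubgroup * (w * Multiset.card (A q)))
    (hM' : ∀ (Ω : Type) [Field Ω] [IsAlgClosed Ω], (M' : Ω) ≠ 0 →
      ∀ (A : (GQ ⧸ F.fixingSubgroup) → Multiset Ω) (a : ℕ), a ≤ w * (finrank ℚ F * n) →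
        (∀ x, A x + (A x).map (fun z => ((p ^ w : ℕ) : Ω) / z) ≤
          ((T.poly ((cj x.out P).under (𝓞 F))).map (Int.castRingHom Ω)).roots) →
        (∏ x, (A x).prod) ^ expo F.fixingSubgroup = (p : Ω) ^ (a * expo F.fixingSubgroup) →
        ∃ A' : (GQ ⧸ F.fixingSubgroup) → Multiset ℂ,
          (∀ x, Multiset.card (A' x) = Multiset.card (A x)) ∧
          (∀ x, A' x + (A' x).map (fun z => ((p ^ w : ℕ) : ℂ) / z) ≤
            (T.poly ((cj x.out P).under (𝓞 F))).aroots ℂ) ∧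
          (∏ x, (A' x).prod) ^ expo F.fixingSubgroup = (p : ℂ) ^ (a * expo F.fixingSubgroup))
    (hrel : ∀ d, IsotropicRelation F w p T.poly P d → d = 0) :
    ∃ J : Matrix (Fin n) (Fin n) ℤ_[ℓ], T.IsPolarization w ℓ J ∧ IsUnit J.det ∧
      NoIso (toF (T.rho ℓ)) (rd J) := by
  obtain ⟨⟨J, hJ, hJu⟩, hw⟩ := hT.residual ℓ hℓS
  refine ⟨J, hJ, hJu, noiso_gen (PadicInt.toZMod (p := ℓ)) hT.toGoodSystem hJ
    (hJu.map (PadicInt.toZMod (p := ℓ))).ne_zero (fun U hU => ?_) hp hpS hpℓ hP hpP hσ hσc hMk'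
    hM' hrel⟩
  exact weight_sub (PadicInt.toZMod (p := ℓ)) continuous_toZMod mink_zmod (pure_of hT) hw hp hpS
    hpℓ hP hpP hσ hσc hMk hM U hU

end single

end Pool.Agent.U922.SF
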